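import Pool.Agent.H159TP.Main

/-!
# Partitioning highly strong tournaments into `k`-strong parts with prescribed vertices

`IsTournament`, `StrongOn` and `KStrong` are defined in `Pool/Agent/H159TP/Defs.lean`.
-/

namespace Pool.Agent.Results.MP_a8780a_co.PrescribedParts

open Pool.Agent.H159TP

/-- There is a constant `C` such that for all `k, t ≥ 1` and all `n ≥ C k ^ 4 t ^ 4` (for instance
`n = C k ^ 7 t ^ 4`) the following holds. Let `adj` be an `n`-strong tournament on a finite set `V`
and let `x 0, …, x (t - 1)` be distinct vertices. Then `V` has a partition into `t` sets `W i` such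
that `x i ∈ W i` and the subtournament induced on `W i` is `k`-strong, for all `i`. -/
theorem result : ∃ C : ℕ, ∀ k t n : ℕ, 1 ≤ k → 1 ≤ t → C * k ^ 4 * t ^ 4 ≤ n →
    ∀ (V : Type) [Fintype V] (adj : V → V → Prop), IsTournament adj → KStrong adj n Finset.univ →
    ∀ x : Fin t → V, Function.Injective x →
    ∃ W : Fin t → Finset V, (∀ i, x i ∈ W i) ∧ (∀ i, KStrong adj k (W i)) ∧
      (∀ i j, i ≠ j → Disjoint (W i) (W j)) ∧ ∀ v, ∃ i, v ∈ W i :=
  ⟨140000, fun k t n hk ht hn _ _ _ h hs x hx => main h k t n hk ht hn hs x hx⟩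

end Pool.Agent.Results.MP_a8780a_co.PrescribedParts
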